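import Pool.Agent.Y251.SF.Stm3

set_option autoImplicit false

/-!
# A singularity of order at most `1 / dist` with a small constant is bounded
-/

open Complex MeasureTheory Metric Set Filter Topology ComplexConjugate

namespace Pool.Agent.Y167.SF

open Pool.Agent.Y245.SC
open Pool.Agent.Y251.SF (S_KAP2 S_GRON S_BOOT3)

/-- the derivative of `φ (exp ω)` -/
noncomputable def QQ (φ : ℂ → ℂ) (ω : ℂ) : ℂ := deriv φ (exp ω) * exp ω

theorem exp_mem {ℓ : ℝ} {ω : ℂ} (h : ω.re < ℓ) : exp ω ∈ ball (0 : ℂ) (Real.exp ℓ) := by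
  rw [mem_ball_zero_iff, Complex.norm_exp]
  exact Real.exp_lt_exp.2 h

theorem hasDeriv {φ : ℂ → ℂ} {ℓ : ℝ} (hφ : DifferentiableOn ℂ φ (ball 0 (Real.exp ℓ))) {ω : ℂ}
    (h : ω.re < ℓ) : HasDerivAt (fun x => φ (exp x)) (QQ φ ω) ω := by
  have h1 : DifferentiableAt ℂ φ (exp ω) :=
    hφ.differentiableAt (isOpen_ball.mem_nhds (exp_mem h))
  exact h1.hasDerivAt.comp ω (Complex.hasDerivAt_exp ω)

theorem QQ_diff {φ : ℂ → ℂ} {ℓ : ℝ} (hφ : DifferentiableOn ℂ φ (ball 0 (Real.exp ℓ))) {ω : ℂ}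
    (h : ω.re < ℓ) : DifferentiableAt ℂ (QQ φ) ω := by
  have hd : DifferentiableOn ℂ (deriv φ) (ball 0 (Real.exp ℓ)) := hφ.deriv isOpen_ball
  have h1 : DifferentiableAt ℂ (deriv φ) (exp ω) :=
    hd.differentiableAt (isOpen_ball.mem_nhds (exp_mem h))
  have h2 : DifferentiableAt ℂ (fun x => deriv φ (exp x)) ω :=
    h1.comp ω (Complex.differentiable_exp ω)
  exact h2.mul (Complex.differentiable_exp ω)

/-- `Fc` is holomorphic -/
theorem Fc_diff {φ : ℂ → ℂ} {ℓ : ℝ} (hφ : DifferentiableOn ℂ φ (ball 0 (Real.exp ℓ))) {ω : ℂ}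
    (h : -ℓ < ω.re) : DifferentiableAt ℂ (Fc φ) ω := by
  have h1 : DifferentiableAt ℂ (fun x => φ (exp (-x))) (conj ω) := by
    have h2 : (-(conj ω)).re < ℓ := by
      rw [neg_re, conj_re]
      linarith
    have h3 := (hasDeriv hφ h2).differentiableAt
    exact h3.comp (conj ω) (differentiableAt_id.neg)
  have h4 := h1.conj_conj
  rw [Complex.conj_conj] at h4
  exact h4

theorem strip_open (ℓ : ℝ) : IsOpen (Strip ℓ) :=
  (isOpen_lt continuous_const Complex.continuous_re).inter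
    (isOpen_lt Complex.continuous_re continuous_const)

theorem strip_conv (ℓ : ℝ) : Convex ℝ (Strip ℓ) :=
  (convex_halfSpace_re_gt (-ℓ)).inter (convex_halfSpace_re_lt ℓ)

theorem ker_diff {φ : ℂ → ℂ} {a ℓ : ℝ} (hK : Differentiable ℂ (kap a))
    (hφ : DifferentiableOn ℂ φ (ball 0 (Real.exp ℓ))) (ω0 : ℂ) :
    DifferentiableOn ℂ (fun ω => ker a φ ω ω0 (Fc φ ω)) (Strip ℓ) := by
  intro ω hω
  apply DifferentiableAt.differentiableWithinAt
  have h1 := Fc_diff hφ hω.1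
  have h2 : DifferentiableAt ℂ (fun x => φ (exp x)) ω := (hasDeriv hφ hω.2).differentiableAt
  have h3 : DifferentiableAt ℂ (fun ω => deriv φ (exp ω) * exp ω) ω := QQ_diff hφ hω.2
  have h4 : DifferentiableAt ℂ (fun ω => kap a (Fc φ ω * (φ (exp ω) - φ (exp ω0)))) ω :=
    (hK _).comp ω (h1.mul (h2.sub_const _))
  exact ((h1.pow 2).mul h4).mul h3

/-- a bound for a segment integral -/
theorem seg_le {g : ℂ → ℂ} {p q : ℂ} {K : ℝ}
    (h : ∀ t ∈ Icc (0 : ℝ) 1, ‖g (p + t * (q - p))‖ ≤ K) : ‖seg g p q‖ ≤ K * ‖q - p‖ := by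
  unfold seg
  have h1 := intervalIntegral.norm_integral_le_of_norm_le_const (a := (0 : ℝ)) (b := 1)
    (C := K * ‖q - p‖) (f := fun t : ℝ => g (p + t * (q - p)) * (q - p)) (by
      intro t ht
      rw [uIoc_of_le zero_le_one] at ht
      rw [norm_mul]
      exact mul_le_mul_of_nonneg_right (h t ⟨ht.1.le, ht.2⟩) (norm_nonneg _))
  simpa using h1

theorem exp_num {q : ℝ} (h0 : 0 ≤ q) (h : q < 3 / 4) : q / 2 * Real.exp q < 1 := by
  have h1 : Real.exp q ≤ Real.exp (3 / 4) := Real.exp_le_exp.mpr h.le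
  have h2 : Real.exp (3 / 4) < 11 / 5 := by
    by_contra hc
    push Not at hc
    have h3 : (11 / 5 : ℝ) ^ 4 ≤ Real.exp (3 / 4) ^ 4 := pow_le_pow_left₀ (by norm_num) hc 4
    have h4 : Real.exp (3 / 4) ^ 4 = Real.exp 1 ^ 3 := by
      rw [← Real.exp_nat_mul, ← Real.exp_nat_mul]
      norm_num
    have h5 := Real.exp_one_lt_d9
    have h6 : Real.exp 1 ^ 3 ≤ (2.7182818286 : ℝ) ^ 3 :=
      pow_le_pow_left₀ (Real.exp_pos 1).le h5.le 3
    rw [h4] at h3
    norm_num at h3 h6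
    linarith
  have h7 := Real.exp_pos q
  nlinarith

/-- room above the two constants -/
theorem room {a L η : ℝ} (h : a * L * η < 3 / 4) :
    ∃ t : ℝ, 0 < t ∧ a * (L + t) * (η + t) < 3 / 4 := by
  have hc : ContinuousAt (fun t : ℝ => a * (L + t) * (η + t)) 0 := by fun_prop
  have h1 : ∀ᶠ t in 𝓝 (0 : ℝ), a * (L + t) * (η + t) < 3 / 4 := by
    apply hc.eventually_lt continuousAt_const
    simpa using h
  obtain ⟨e, he, h2⟩ := Metric.eventually_nhds_iff.mp h1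
  refine ⟨e / 2, by positivity, h2 ?_⟩
  rw [Real.dist_eq, sub_zero, abs_of_pos (by positivity)]
  linarith

theorem main (hK2 : S_KAP2) (hK : S_KAP) (hS : S_SEG) (hGr : S_GRON) (φ G : ℂ → ℂ)
    (a ℓ η y1 : ℝ) (ha : 0 < a) (hℓ : 0 < ℓ) (hη : 0 ≤ η)
    (hφ : DifferentiableOn ℂ φ (ball 0 (Real.exp ℓ))) (hG : DifferentiableOn ℂ G (ball 0 1))
    (hV : Volt a ℓ φ G) (hsm : a * ‖QQ φ (((-ℓ : ℝ) : ℂ) + y1 * I)‖ * η < 3 / 4)
    (hgr : ∀ η' : ℝ, η < η' → ∃ δ : ℝ, 0 < δ ∧ ∀ ω : ℂ, -ℓ < ω.re → ω.re < -ℓ + δ →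
      |ω.im - y1| < δ → (ℓ + ω.re) * ‖Fc φ ω‖ ≤ η') :
    ∃ δ M : ℝ, 0 < δ ∧ ∀ ω : ℂ, -ℓ < ω.re → ω.re ≤ 0 → |ω.im - y1| < δ → ‖Fc φ ω‖ ≤ M := by
  obtain ⟨e, he, hroom⟩ := room hsm
  obtain ⟨L', hL'⟩ : ∃ L', L' = ‖QQ φ (((-ℓ : ℝ) : ℂ) + y1 * I)‖ + e := ⟨_, rfl⟩
  obtain ⟨η', hη'⟩ : ∃ η', η' = η + e := ⟨_, rfl⟩
  rw [← hL', ← hη'] at hroom
  have hL0 : 0 < L' := by rw [hL']; positivity
  have hη0 : 0 ≤ η' := by rw [hη']; linarith
  obtain ⟨q, hq⟩ : ∃ q, q = a * L' * η' := ⟨_, rfl⟩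
  have hq0 : 0 ≤ q := by rw [hq]; positivity
  have hq1 : q < 3 / 4 := by rw [hq]; exact hroom
  obtain ⟨δ0, hδ0, hg⟩ := hgr η' (by rw [hη']; linarith)
  -- continuity of the derivative
  obtain ⟨d1, hd1, hd1ℓ, hQ⟩ : ∃ d1 : ℝ, 0 < d1 ∧ d1 ≤ ℓ ∧ ∀ ω : ℂ, |ω.re + ℓ| < d1 →
      |ω.im - y1| < d1 → ‖QQ φ ω‖ ≤ L' := by
    have h1 : ContinuousAt (QQ φ) (((-ℓ : ℝ) : ℂ) + y1 * I) := by
      apply (QQ_diff hφ _).continuousAt
      simp
      linarith
    have h2 : ∀ᶠ ω in 𝓝 ((((-ℓ : ℝ) : ℂ) + y1 * I)), ‖QQ φ ω‖ < L' := by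
      apply h1.norm.eventually_lt continuousAt_const
      rw [hL']
      linarith
    obtain ⟨r, hr, h3⟩ := Metric.eventually_nhds_iff.mp h2
    refine ⟨min (r / 2) ℓ, by positivity, min_le_right _ _, fun ω h4 h5 => (h3 ?_).le⟩
    replace h4 := h4.trans_le (min_le_left _ _)
    replace h5 := h5.trans_le (min_le_left _ _)
    rw [dist_eq_norm]
    refine lt_of_le_of_lt (Complex.norm_le_abs_re_add_abs_im _) ?_
    have e1 : (ω - (((-ℓ : ℝ) : ℂ) + y1 * I)).re = ω.re + ℓ := by simp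
    have e2 : (ω - (((-ℓ : ℝ) : ℂ) + y1 * I)).im = ω.im - y1 := by simp
    rw [e1, e2]
    linarith
  obtain ⟨d, hd⟩ : ∃ d, d = min (min d1 δ0) ℓ / 2 := ⟨_, rfl⟩
  have hd0 : 0 < d := by rw [hd]; positivity
  have hdd1 : d < d1 := by
    have h1 : min (min d1 δ0) ℓ ≤ d1 := (min_le_left _ _).trans (min_le_left _ _)
    rw [hd]; linarith
  have hdδ : d < δ0 := by
    have h1 : min (min d1 δ0) ℓ ≤ δ0 := (min_le_left _ _).trans (min_le_right _ _)
    rw [hd]; linarith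
  have hdℓ : d < ℓ := by
    have h1 : min (min d1 δ0) ℓ ≤ ℓ := min_le_right _ _
    rw [hd]; linarith
  -- the constants
  have hexp0 : Real.exp (-ℓ + d) < 1 := by
    rw [Real.exp_lt_one_iff]
    linarith
  obtain ⟨KG, hKG⟩ := (isCompact_closedBall (0 : ℂ)
    (Real.exp (-ℓ + d))).exists_bound_of_continuousOn
      (hG.continuousOn.mono (closedBall_subset_ball hexp0))
  have hexp1 : Real.exp (ℓ - d) < Real.exp ℓ := Real.exp_lt_exp.2 (by linarith)
  obtain ⟨BF, hBF⟩ := (isCompact_closedBall (0 : ℂ)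
    (Real.exp (ℓ - d))).exists_bound_of_continuousOn
      (hφ.continuousOn.mono (closedBall_subset_ball hexp1))
  have hBF0 : 0 ≤ BF := (norm_nonneg _).trans (hBF 0 (mem_closedBall_self (Real.exp_pos _).le))
  have hFb : ∀ ω : ℂ, -ℓ + d ≤ ω.re → ‖Fc φ ω‖ ≤ BF := by
    intro ω h
    unfold Fc
    rw [RCLike.norm_conj]
    apply hBF
    rw [mem_closedBall_zero_iff, Complex.norm_exp]
    apply Real.exp_le_exp.2
    rw [neg_re, conj_re]
    linarith
  have hsub1 : closedBall (0 : ℂ) 1 ⊆ ball 0 (Real.exp ℓ) :=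
    closedBall_subset_ball (Real.one_lt_exp_iff.2 hℓ)
  have hdφ : DifferentiableOn ℂ (deriv φ) (ball 0 (Real.exp ℓ)) := hφ.deriv isOpen_ball
  obtain ⟨B, hB⟩ := (isCompact_closedBall (0 : ℂ) 1).exists_bound_of_continuousOn
    (hdφ.continuousOn.mono hsub1)
  obtain ⟨Bφ, hBφ⟩ := (isCompact_closedBall (0 : ℂ) 1).exists_bound_of_continuousOn
    (hφ.continuousOn.mono hsub1)
  have hB0 : 0 ≤ B := (norm_nonneg _).trans (hB 0 (mem_closedBall_self zero_le_one))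
  have hBφ0 : 0 ≤ Bφ := (norm_nonneg _).trans (hBφ 0 (mem_closedBall_self zero_le_one))
  have hexpm : ∀ ω : ℂ, ω.re ≤ 0 → exp ω ∈ closedBall (0 : ℂ) 1 := by
    intro ω h
    rw [mem_closedBall_zero_iff, Complex.norm_exp]
    exact Real.exp_le_one_iff.2 h
  have hQb : ∀ ω : ℂ, ω.re ≤ 0 → ‖deriv φ (exp ω) * exp ω‖ ≤ B := by
    intro ω h
    rw [norm_mul]
    have h1 := hB _ (hexpm ω h)
    have h2 : ‖exp ω‖ ≤ 1 := mem_closedBall_zero_iff.1 (hexpm ω h)
    calc _ ≤ B * 1 := mul_le_mul h1 h2 (norm_nonneg _) hB0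
      _ = B := mul_one B
  have hkap : ∀ (x : ℂ) (X : ℝ), ‖x‖ ≤ X → ‖kap a x‖ ≤ a / 2 * Real.exp (a * X) := by
    intro x X hx
    refine (hK2 a x ha.le).trans (mul_le_mul_of_nonneg_left ?_ (by positivity))
    exact Real.exp_le_exp.2 (mul_le_mul_of_nonneg_left hx ha.le)
  obtain ⟨K1, hK1⟩ : ∃ K1, K1 = BF ^ 2 * (a / 2 * Real.exp (a * (BF * (2 * Bφ)))) * B := ⟨_, rfl⟩
  have hK10 : 0 ≤ K1 := by rw [hK1]; positivity
  obtain ⟨M, hM⟩ : ∃ M, M = KG + K1 * (ℓ + (|y1| + d)) := ⟨_, rfl⟩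
  have hKG0 : 0 ≤ KG := (norm_nonneg _).trans (hKG 0 (mem_closedBall_self (Real.exp_pos _).le))
  have hM0 : 0 ≤ M := by rw [hM]; positivity
  obtain ⟨C, hC⟩ : ∃ C, C = a / 2 * Real.exp q * L' := ⟨_, rfl⟩
  have hC0 : 0 ≤ C := by rw [hC]; positivity
  have hCη : C * η' < 1 := by
    have h1 : C * η' = q / 2 * Real.exp q := by
      rw [hC, hq]; ring
    rw [h1]
    exact exp_num hq0 hq1
  obtain ⟨M0, hGM⟩ := hGr d M C η' hd0 hM0 hC0 hη0 hCη
  refine ⟨d, max M0 BF, hd0, ?_⟩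
  intro w hw1 hw2 hw3
  rcases le_total (-ℓ + d) w.re with hwd | hwd
  · exact (hFb w hwd).trans (le_max_right _ _)
  refine le_trans ?_ (le_max_left _ _)
  obtain ⟨y, hy⟩ : ∃ y, y = w.im := ⟨_, rfl⟩
  have hyd : |y - y1| < d := by rw [hy]; exact hw3
  obtain ⟨pt, hpt⟩ : ∃ pt : ℝ → ℂ, pt = fun s => (((-ℓ + s : ℝ) : ℂ)) + y * I := ⟨_, rfl⟩
  have hre : ∀ s, (pt s).re = -ℓ + s := by intro s; rw [hpt]; simp
  have him : ∀ s, (pt s).im = y := by intro s; rw [hpt]; simp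
  obtain ⟨f, hf⟩ : ∃ f : ℝ → ℝ, f = fun s => ‖Fc φ (pt s)‖ := ⟨_, rfl⟩
  have hptc : Continuous pt := by rw [hpt]; fun_prop
  have hfc : ContinuousOn f (Ioc 0 d) := by
    intro s hs
    rw [hf]
    apply ContinuousAt.continuousWithinAt
    have h1 : ContinuousAt (Fc φ) (pt s) := (Fc_diff hφ (by rw [hre]; linarith [hs.1])).continuousAt
    exact (h1.comp hptc.continuousAt).norm
  have hfη : ∀ s ∈ Ioc (0 : ℝ) d, s * f s ≤ η' := by
    intro s hs
    have h1 := hg (pt s) (by rw [hre]; linarith [hs.1]) (by rw [hre]; linarith [hs.2])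
      (by rw [him]; linarith)
    rw [hre] at h1
    rw [hf]
    have h2 : ℓ + (-ℓ + s) = s := by ring
    rwa [h2] at h1
  have hwp : pt (ℓ + w.re) = w := by
    apply Complex.ext
    · rw [hre]; ring
    · rw [him, hy]
  have hfin := hGM f hfc (fun s _ => by rw [hf]; exact norm_nonneg _) hfη ?_ (ℓ + w.re)
    ⟨by linarith, by linarith⟩
  · rw [hf] at hfin
    simp only [hwp] at hfin
    exact hfin
  -- the integral inequality
  intro t ht
  obtain ⟨g, hgd⟩ : ∃ g : ℂ → ℂ, g = fun ω => ker a φ ω (pt t) (Fc φ ω) := ⟨_, rfl⟩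
  have hgdiff : DifferentiableOn ℂ g (Strip ℓ) := by
    rw [hgd]
    exact ker_diff (hK a ha.le).1 hφ (pt t)
  have m0 : (0 : ℂ) ∈ Strip ℓ := ⟨by simpa using hℓ, by simpa using hℓ⟩
  have m1 : pt d ∈ Strip ℓ := ⟨by rw [hre]; linarith, by rw [hre]; linarith⟩
  have m2 : pt t ∈ Strip ℓ := ⟨by rw [hre]; linarith [ht.1], by rw [hre]; linarith [ht.2]⟩
  have hadd := (hS (Strip ℓ) g (strip_open ℓ) (strip_conv ℓ) hgdiff).1 0 m0 (pt d) m1 (pt t) m2
  have hVt := hV (pt t) (by rw [hre]; linarith [ht.1]) (by rw [hre]; linarith [ht.2])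
  rw [← hgd, ← hadd] at hVt
  -- the first part
  have b1 : ‖G (exp (pt t))‖ ≤ KG := by
    apply hKG
    rw [mem_closedBall_zero_iff, Complex.norm_exp, hre]
    exact Real.exp_le_exp.2 (by linarith [ht.2])
  have b2 : ‖seg g 0 (pt d)‖ ≤ K1 * (ℓ + (|y1| + d)) := by
    have h1 : ‖seg g 0 (pt d)‖ ≤ K1 * ‖pt d - 0‖ := by
      apply seg_le
      intro τ hτ
      obtain ⟨ω, hω⟩ : ∃ ω : ℂ, ω = 0 + (τ : ℂ) * (pt d - 0) := ⟨_, rfl⟩
      rw [← hω]
      have hωre : ω.re = τ * (-ℓ + d) := by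
        rw [hω, zero_add, sub_zero, re_ofReal_mul, hre]
      have r1 : -ℓ + d ≤ ω.re := by
        rw [hωre]
        nlinarith [hτ.1, hτ.2]
      have r2 : ω.re ≤ 0 := by
        rw [hωre]
        nlinarith [hτ.1, hτ.2]
      have k1 := hFb ω r1
      have k2 : ‖Fc φ ω * (φ (exp ω) - φ (exp (pt t)))‖ ≤ BF * (2 * Bφ) := by
        rw [norm_mul]
        refine mul_le_mul k1 ?_ (norm_nonneg _) hBF0
        have k3 := hBφ _ (hexpm ω r2)
        have k4 := hBφ _ (hexpm (pt t) (by rw [hre]; linarith [ht.2]))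
        exact (norm_sub_le _ _).trans (by linarith)
      have k5 := hkap _ _ k2
      have k6 := hQb ω r2
      rw [hgd]
      show ‖Fc φ ω ^ 2 * kap a (Fc φ ω * (φ (exp ω) - φ (exp (pt t)))) *
        (deriv φ (exp ω) * exp ω)‖ ≤ K1
      rw [norm_mul, norm_mul, norm_pow, hK1]
      have k7 : ‖Fc φ ω‖ ^ 2 ≤ BF ^ 2 := pow_le_pow_left₀ (norm_nonneg _) k1 2
      exact mul_le_mul (mul_le_mul k7 k5 (norm_nonneg _) (by positivity)) k6 (norm_nonneg _)
        (by positivity)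
    refine h1.trans (mul_le_mul_of_nonneg_left ?_ hK10)
    rw [sub_zero]
    refine (Complex.norm_le_abs_re_add_abs_im _).trans ?_
    rw [hre, him]
    have h2 : |(-ℓ + d)| ≤ ℓ := by
      rw [abs_le]
      constructor <;> linarith
    have h3 : |y| ≤ |y1| + d := by
      have h4 : |y| ≤ |y1| + |y - y1| := by
        have := abs_add_le y1 (y - y1)
        rwa [add_sub_cancel] at this
      linarith
    linarith
  -- the second part
  have b3 : ‖seg g (pt d) (pt t)‖ ≤ C * ∫ s in t..d, f s ^ 2 := by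
    have hpsub : ∀ τ : ℝ, pt d + (τ : ℂ) * (pt t - pt d) = pt ((t - d) * τ + d) := by
      intro τ
      rw [hpt]
      push_cast
      ring
    have hdiff : pt t - pt d = ((t - d : ℝ) : ℂ) := by
      rw [hpt]
      push_cast
      ring
    have hrange : ∀ τ ∈ Icc (0 : ℝ) 1, t ≤ (t - d) * τ + d ∧ (t - d) * τ + d ≤ d := by
      intro τ hτ
      constructor
      · nlinarith [hτ.1, hτ.2, ht.2]
      · nlinarith [hτ.1, hτ.2, ht.2]
    have hbound : ∀ τ ∈ Icc (0 : ℝ) 1, ‖g (pt ((t - d) * τ + d))‖ ≤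
        C * f ((t - d) * τ + d) ^ 2 := by
      intro τ hτ
      obtain ⟨s1, s2⟩ := hrange τ hτ
      obtain ⟨s, hs⟩ : ∃ s, s = (t - d) * τ + d := ⟨_, rfl⟩
      rw [← hs] at s1 s2 ⊢
      have hs0 : 0 < s := ht.1.trans_le s1
      have k1 : ‖φ (exp (pt s)) - φ (exp (pt t))‖ ≤ L' * s := by
        have hconv : Convex ℝ {ω : ℂ | |ω.re + ℓ| < d1 ∧ |ω.im - y1| < d1} := by
          have e1 : {ω : ℂ | |ω.re + ℓ| < d1 ∧ |ω.im - y1| < d1} =
              ({ω : ℂ | -d1 - ℓ < ω.re} ∩ {ω : ℂ | ω.re < d1 - ℓ}) ∩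
              ({ω : ℂ | y1 - d1 < ω.im} ∩ {ω : ℂ | ω.im < y1 + d1}) := by
            ext ω
            simp only [mem_ofPred_eq, mem_inter_iff, abs_lt]
            constructor
            · rintro ⟨⟨a1, a2⟩, a3, a4⟩
              exact ⟨⟨by linarith, by linarith⟩, by linarith, by linarith⟩
            · rintro ⟨⟨a1, a2⟩, a3, a4⟩
              exact ⟨⟨by linarith, by linarith⟩, by linarith, by linarith⟩
          rw [e1]
          exact ((convex_halfSpace_re_gt _).inter (convex_halfSpace_re_lt _)).inter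
            ((convex_halfSpace_im_gt _).inter (convex_halfSpace_im_lt _))
        have hmem : ∀ s, 0 < s → s ≤ d → pt s ∈ {ω : ℂ | |ω.re + ℓ| < d1 ∧ |ω.im - y1| < d1} := by
          intro s h1 h2
          refine ⟨?_, ?_⟩
          · rw [hre, abs_lt]
            constructor <;> linarith
          · rw [him]; linarith
        have hlip := hconv.norm_image_sub_le_of_norm_hasDerivWithin_le
          (f := fun x => φ (exp x)) (f' := QQ φ) (C := L')
          (fun z hz => (hasDeriv hφ (by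
            have := (abs_lt.mp hz.1).2
            linarith)).hasDerivWithinAt)
          (fun z hz => hQ z hz.1 hz.2) (hmem t ht.1 ht.2) (hmem s hs0 s2)
        refine hlip.trans (mul_le_mul_of_nonneg_left ?_ hL0.le)
        have e2 : pt s - pt t = ((s - t : ℝ) : ℂ) := by
          rw [hpt]
          push_cast
          ring
        rw [e2, Complex.norm_real, Real.norm_of_nonneg (by linarith)]
        linarith [ht.1]
      have k2 : ‖Fc φ (pt s) * (φ (exp (pt s)) - φ (exp (pt t)))‖ ≤ L' * η' := by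
        rw [norm_mul]
        have k3 := hfη s ⟨hs0, s2⟩
        have k4 : f s = ‖Fc φ (pt s)‖ := by rw [hf]
        rw [k4] at k3
        calc ‖Fc φ (pt s)‖ * ‖φ (exp (pt s)) - φ (exp (pt t))‖
            ≤ ‖Fc φ (pt s)‖ * (L' * s) := mul_le_mul_of_nonneg_left k1 (norm_nonneg _)
          _ = L' * (s * ‖Fc φ (pt s)‖) := by ring
          _ ≤ L' * η' := mul_le_mul_of_nonneg_left k3 hL0.le
      have k5 := hkap _ _ k2
      have k6 : a * (L' * η') = q := by rw [hq]; ring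
      rw [k6] at k5
      have k7 : ‖deriv φ (exp (pt s)) * exp (pt s)‖ ≤ L' :=
        hQ (pt s) (by rw [hre, abs_lt]; constructor <;> linarith) (by rw [him]; linarith)
      have k8 : f s = ‖Fc φ (pt s)‖ := by rw [hf]
      rw [hgd, k8]
      show ‖Fc φ (pt s) ^ 2 * kap a (Fc φ (pt s) * (φ (exp (pt s)) - φ (exp (pt t)))) *
        (deriv φ (exp (pt s)) * exp (pt s))‖ ≤ _
      rw [norm_mul, norm_mul, norm_pow, hC]
      calc ‖Fc φ (pt s)‖ ^ 2 * ‖kap a (Fc φ (pt s) * (φ (exp (pt s)) - φ (exp (pt t))))‖ *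
            ‖deriv φ (exp (pt s)) * exp (pt s)‖
          ≤ ‖Fc φ (pt s)‖ ^ 2 * (a / 2 * Real.exp q) * L' :=
            mul_le_mul (mul_le_mul_of_nonneg_left k5 (by positivity)) k7 (norm_nonneg _)
              (by positivity)
        _ = a / 2 * Real.exp q * L' * ‖Fc φ (pt s)‖ ^ 2 := by ring
    have hint : (∫ s in t..d, f s ^ 2) = ∫ τ in (0 : ℝ)..1, f ((t - d) * τ + d) ^ 2 * (d - t) := by
      have h1 := intervalIntegral.smul_integral_comp_mul_add (a := 0) (b := 1)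
        (fun s => f s ^ 2) (t - d) d
      simp only [mul_zero, zero_add, mul_one, sub_add_cancel, smul_eq_mul] at h1
      rw [intervalIntegral.integral_symm, ← h1, intervalIntegral.integral_mul_const]
      ring
    have hcomp : ContinuousOn (fun τ : ℝ => f ((t - d) * τ + d) ^ 2 * (d - t)) (uIcc 0 1) := by
      rw [uIcc_of_le zero_le_one]
      have h1 : ContinuousOn (fun τ : ℝ => f ((t - d) * τ + d)) (Icc 0 1) := by
        refine hfc.comp (by fun_prop) ?_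
        intro τ hτ
        exact ⟨ht.1.trans_le (hrange τ hτ).1, (hrange τ hτ).2⟩
      exact (h1.pow 2).mul continuousOn_const
    unfold seg
    rw [hint, ← intervalIntegral.integral_const_mul]
    refine intervalIntegral.norm_integral_le_of_norm_le zero_le_one
      (Eventually.of_forall fun τ hτ => ?_) (hcomp.const_smul C).intervalIntegrable
    rw [hpsub, norm_mul, hdiff, Complex.norm_real, Real.norm_eq_abs, abs_sub_comm,
      abs_of_nonneg (by linarith [ht.2] : (0 : ℝ) ≤ d - t)]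
    have h2 := hbound τ ⟨hτ.1.le, hτ.2⟩
    calc ‖g (pt ((t - d) * τ + d))‖ * (d - t) ≤ C * f ((t - d) * τ + d) ^ 2 * (d - t) :=
          mul_le_mul_of_nonneg_right h2 (by linarith [ht.2])
      _ = C * (f ((t - d) * τ + d) ^ 2 * (d - t)) := by ring
  have hft : f t = ‖Fc φ (pt t)‖ := by rw [hf]
  rw [hft, hVt]
  calc ‖G (exp (pt t)) + (seg g 0 (pt d) + seg g (pt d) (pt t))‖
      ≤ ‖G (exp (pt t))‖ + (‖seg g 0 (pt d)‖ + ‖seg g (pt d) (pt t)‖) :=
        (norm_add_le _ _).trans (add_le_add_right (norm_add_le _ _) _)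
    _ ≤ KG + (K1 * (ℓ + (|y1| + d)) + C * ∫ s in t..d, f s ^ 2) :=
        add_le_add b1 (add_le_add b2 b3)
    _ = _ := by rw [hM]; ring

theorem boot3 : S_KAP2 → S_KAP → S_SEG → S_GRON → S_BOOT3 := by
  intro hK2 hK hS hGr φ G a ℓ η y1 ha hℓ hη hφ hG hV hsm hgr
  exact main hK2 hK hS hGr φ G a ℓ η y1 ha hℓ hη hφ hG hV hsm hgr

end Pool.Agent.Y167.SF
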